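import Pool.Graph.R_pool_sql_team_seeded_3997aac3.Q171.ETC.Main

/-!
# Borel cohomology classes of a group which acts through a homomorphism to `{1, -1}`
-/

set_option autoImplicit false

namespace Pool.Agent.KS6_83.TC

open Pool.Agent.Q171.ETC

/-- the space `X`, on which the group `G` acts through `φ : G → {1, -1}` -/
def Via {G : Type} [Group G] (_ : G →* ℤˣ) (X : Type) : Type := X

section Via

variable {G : Type} [Group G] (φ : G →* ℤˣ) (X : Type)

instance viaTop [t : TopologicalSpace X] : TopologicalSpace (Via φ X) := t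

instance viaUnits [a : MulAction ℤˣ X] : MulAction ℤˣ (Via φ X) := a

/-- `g • x = φ g • x` -/
instance viaAct [MulAction ℤˣ X] : MulAction G (Via φ X) := MulAction.compHom X φ

instance viaContUnits [TopologicalSpace X] [MulAction ℤˣ X] [c : ContinuousConstSMul ℤˣ X] :
    ContinuousConstSMul ℤˣ (Via φ X) := c

instance viaCont [TopologicalSpace X] [MulAction ℤˣ X] [c : ContinuousConstSMul ℤˣ X] :
    ContinuousConstSMul G (Via φ X) := ⟨fun g => c.continuous_const_smul (φ g)⟩

theorem via_smul [MulAction ℤˣ X] (g : G) (x : Via φ X) : g • x = φ g • x := rfl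

end Via

section Pow

variable {G : Type} [Group G] {Y : Type} [TopologicalSpace Y] [MulAction G Y]
  [ContinuousConstSMul G Y]

/-- the powers of a cocycle of degree one -/
noncomputable def powG (y : Z G Y 1) : ℕ → Σ n, Z G Y n
  | 0 => ⟨0, ⟨fun _ => 1, one_mem⟩⟩
  | k + 1 => ⟨1 + (powG y k).1, cupZ rfl y (powG y k).2⟩

theorem powG_deg (y : Z G Y 1) (k : ℕ) : (powG y k).1 = k := by
  induction k with
  | zero => rfl
  | succ k ih =>
    change 1 + (powG y k).1 = k + 1
    rw [ih, add_comm]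

theorem prodG_replicate (y : Z G Y 1) (k : ℕ) :
    prodH (List.replicate k (⟨1, cls y⟩ : Σ n, H G Y n)) = ⟨(powG y k).1, cls (powG y k).2⟩ := by
  induction k with
  | zero => rfl
  | succ k ih =>
    exact congrArg (fun a : Σ n, H G Y n =>
      (⟨1 + a.1, cupH rfl (cls y) a.2⟩ : Σ n, H G Y n)) ih

open Classical in
theorem powG_apply (φ : G →* ℤˣ) (y : Z G Y 1) (k : ℕ) (s : Simp G Y (powG y k).1)
    (hs : ∀ α : Fin 2 → Fin ((powG y k).1 + 1),
      y.1 (pull s α) = if φ (s.1 (α 0)) = φ (s.1 (α 1)) then 0 else 1) :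
    (powG y k).2.1 s = if Alt (fun i => φ (s.1 i)) then 1 else 0 := by
  induction k with
  | zero =>
    have : Alt (fun i => φ (s.1 i)) := by
      intro i j hij
      have h1 : j.1 < 0 + 1 := j.2
      omega
    rw [if_pos this]
    rfl
  | succ k ih =>
    have e : (powG y (k + 1)).2.1 s = y.1 (pull s (front rfl)) *
      (powG y k).2.1 (pull s (back rfl)) := rfl
    rw [e, hs, ih (pull s (back rfl)) (fun α => by rw [pull_pull]; exact hs _)]
    have hiff := alt_iff (q := (powG y k).1) (n := (powG y (k + 1)).1) rfl (fun i => φ (s.1 i))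
    by_cases h0 : φ (s.1 (front rfl 0)) = φ (s.1 (front rfl 1))
    · rw [if_pos h0, zero_mul, if_neg]
      intro hh
      exact (hiff.mp hh).1 h0
    · rw [if_neg h0, one_mul]
      have h2 : Alt (fun i => φ (s.1 i)) ↔
          Alt (fun i => φ ((pull s (back (q := (powG y k).1) rfl)).1 i)) :=
        hiff.trans ⟨fun h => h.2, fun h => ⟨h0, h⟩⟩
      by_cases h3 : Alt (fun i => φ (s.1 i))
      · rw [if_pos h3, if_pos (h2.mp h3)]
      · rw [if_neg h3, if_neg (mt h2.mpr h3)]

end Pow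

section Change

variable {G : Type} [Group G] (φ : G →* ℤˣ) {Y : Type} [TopologicalSpace Y] [MulAction ℤˣ Y]
  [ContinuousConstSMul ℤˣ Y] [MulAction G Y] [ContinuousConstSMul G Y]

/-- the map of simplices induced by `φ` -/
def viaS {n : ℕ} (s : Simp G Y n) : Simp ℤˣ Y n := (fun i => φ (s.1 i), s.2)

theorem viaS_act (hφ : ∀ (g : G) (y : Y), g • y = φ g • y) {n : ℕ} (g : G) (s : Simp G Y n) :
    viaS φ (act g s) = act (φ g) (viaS φ s) := by
  refine Prod.ext (funext fun i => map_mul φ g (s.1 i)) ?_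
  ext1 t
  exact hφ g (s.2 t)

/-- the pull-back of cocycles along `φ` -/
def viaZ (hφ : ∀ (g : G) (y : Y), g • y = φ g • y) {n : ℕ} (c : Z ℤˣ Y n) : Z G Y n :=
  ⟨fun s => c.1 (viaS φ s), fun g s => by
      change c.1 (viaS φ (act g s)) = c.1 (viaS φ s)
      rw [viaS_act φ hφ]
      exact c.2.1 _ _, by
      have e : δ rfl (fun s : Simp G Y n => c.1 (viaS φ s)) =
        fun s => δ rfl c.1 (viaS φ s) := rfl
      rw [e, c.2.2]
      rfl⟩

/-- nonvanishing of a power of a class of degree one -/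
theorem cls_powG_ne (hφ : ∀ (g : G) (y : Y), g • y = φ g • y) (ι : ℤˣ →* G)
    (hι : ∀ u, φ (ι u) = u) (y : Z G Y 1) (k : ℕ)
    (τ : (Fin ((powG y k).1 + 1) → ℤˣ) → C(stdSimplex ℝ (Fin ((powG y k).1 + 1)), Y))
    (hy : ∀ (g : Fin ((powG y k).1 + 1) → ℤˣ) (α : Fin 2 → Fin ((powG y k).1 + 1)),
      y.1 (pull ((fun i => ι (g i)), τ g) α) = if g (α 0) = g (α 1) then 0 else 1)
    (P1 : ∀ (m : ℕ) (h : m + 1 = (powG y k).1) (i : ℕ) (g g' : Fin ((powG y k).1 + 1) → ℤˣ),
      i < (powG y k).1 + 1 → (∀ j, j.1 ≠ i → g j = g' j) →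
      (τ g).comp (aff (face h i)) = (τ g').comp (aff (face h i)))
    (P2 : ∀ (u : ℤˣ) (g : Fin ((powG y k).1 + 1) → ℤˣ), trans u (τ g) = τ (fun i => u * g i)) :
    cls (powG y k).2 ≠ 0 := by
  classical
  rw [Ne, cls_eq_zero]
  have h1 : ev τ (fun s : Simp ℤˣ Y (powG y k).1 =>
      (powG y k).2.1 (fun i => ι (s.1 i), s.2)) = 1 := by
    unfold ev
    rw [← sum_alt (d := (powG y k).1)]
    refine Finset.sum_congr rfl fun g _ => ?_
    have e := powG_apply φ y k ((fun i => ι (g i)), τ g) (fun α => by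
      rw [hy]
      simp only [hι])
    simp only [hι] at e
    exact e
  rintro (h | ⟨m, h, b, hb, h'⟩)
  · rw [h] at h1
    simp [ev] at h1
  · have hb' : Inv (fun s : Simp ℤˣ Y m => b (fun i => ι (s.1 i), s.2)) := by
      intro u s
      refine Eq.trans ?_ (hb (ι u) (fun i => ι (s.1 i), s.2))
      change b (fun i => ι (u * s.1 i), trans u s.2) =
        b (fun i => ι u * ι (s.1 i), trans (ι u) s.2)
      congr 1
      refine Prod.ext (funext fun i => map_mul ι u (s.1 i)) ?_
      ext1 t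
      change u • s.2 t = ι u • s.2 t
      rw [hφ, hι]
    have h2 := ev_δ τ h hb' (P1 m h) P2
    have e : (fun s : Simp ℤˣ Y (powG y k).1 => (powG y k).2.1 (fun i => ι (s.1 i), s.2)) =
        δ h (fun s : Simp ℤˣ Y m => b (fun i => ι (s.1 i), s.2)) := by
      rw [← h']
      rfl
    rw [e, h2] at h1
    exact zero_ne_one h1

end Change

/-- the simplices of a cross-polytope of dimension `d` in a space with an involution -/
def Cross (F : Type) [TopologicalSpace F] [MulAction ℤˣ F] [ContinuousConstSMul ℤˣ F]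
    (d : ℕ) : Prop :=
  ∃ τ : (Fin (d + 1) → ℤˣ) → C(stdSimplex ℝ (Fin (d + 1)), F),
    (∀ (m : ℕ) (h : m + 1 = d) (i : ℕ) (g g' : Fin (d + 1) → ℤˣ),
      i < d + 1 → (∀ j, j.1 ≠ i → g j = g' j) →
      (τ g).comp (aff (face h i)) = (τ g').comp (aff (face h i))) ∧
    ∀ (u : ℤˣ) (g : Fin (d + 1) → ℤˣ), trans u (τ g) = τ (fun i => u * g i)

section Main

variable (F : Type) [TopologicalSpace F] [MulAction ℤˣ F] [ContinuousConstSMul ℤˣ F]

/-- the function `(z, x, z', x') ↦ z z̄'` -/
noncomputable def cF : C((Circ × F) × (Circ × F), ℂ) :=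
  ⟨fun p => p.1.1.1 * (starRingEnd ℂ) p.2.1.1, by
    refine Continuous.mul ?_ (Complex.continuous_conj.comp ?_)
    · exact continuous_subtype_val.comp (continuous_fst.comp continuous_fst)
    · exact continuous_subtype_val.comp (continuous_fst.comp continuous_snd)⟩

omit [MulAction ℤˣ F] [ContinuousConstSMul ℤˣ F] in
theorem cF_apply (p : (Circ × F) × (Circ × F)) :
    cF F p = p.1.1.1 * (starRingEnd ℂ) p.2.1.1 := rfl

omit [MulAction ℤˣ F] [ContinuousConstSMul ℤˣ F] in
theorem cF_ne (p : (Circ × F) × (Circ × F)) : cF F p ≠ 0 := by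
  intro h
  have h1 := congrArg norm h
  rw [cF_apply, norm_mul, Complex.norm_conj, norm_circ, norm_circ, norm_zero] at h1
  norm_num at h1

omit [ContinuousConstSMul ℤˣ F] in
theorem cF_smul (g : ℤˣ) (p : (Circ × F) × (Circ × F)) : cF F (g • p) = cj g (cF F p) := by
  rw [cF_apply, cF_apply]
  change (g • p.1.1 : Circ).1 * (starRingEnd ℂ) (g • p.2.1 : Circ).1 = _
  rw [smul_circ, smul_circ]
  rcases Int.units_eq_one_or g with rfl | rfl
  · simp only [cj_one]
  · simp only [cj_neg_one, map_mul]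

variable {G : Type} [Group G] (φ : G →* ℤˣ)

/-- the zero divisor of degree one -/
noncomputable def yF : Z G (Via φ (Circ × F) × Via φ (Circ × F)) 1 :=
  viaZ φ (Y := Via φ (Circ × F) × Via φ (Circ × F)) (fun _ _ => rfl)
    (ycls (Y := (Circ × F) × (Circ × F)) (cF_ne F) (cF_smul F))

theorem diag_yF : pullH (diag (Via φ (Circ × F))) (diag_equivariant (G := G))
    (cls (yF F φ)) = 0 := by
  change cls (pullZ (diag (Via φ (Circ × F))) (diag_equivariant (G := G)) (yF F φ)) = 0
  rw [cls_eq_zero]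
  refine Or.inl ?_
  funext s
  change yc (cF F) (viaS φ (mapS (diag (Via φ (Circ × F))) s)) = 0
  refine yc_one (Y := (Circ × F) × (Circ × F)) fun t => ?_
  change (s.2 t).1.1 * (starRingEnd ℂ) (s.2 t).1.1 = 1
  rw [Complex.mul_conj, Complex.normSq_eq_norm_sq, norm_circ]
  norm_num

/-- the map `x ↦ ((1, x), (-1, x))` -/
def inclF : C(F, Via φ (Circ × F) × Via φ (Circ × F)) :=
  ⟨fun x => ((pt1, x), (pt2, x)), (continuous_const.prodMk continuous_id).prodMk
    (continuous_const.prodMk continuous_id)⟩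

theorem nilGE_via (ι : ℤˣ →* G) (hι : ∀ u, φ (ι u) = u) (k : ℕ) (hF : Cross F k) :
    NilGE G (Via φ (Circ × F)) k := by
  refine ⟨List.replicate k ⟨1, cls (yF F φ)⟩, List.length_replicate, fun a ha => ?_, ?_⟩
  · rw [List.eq_of_mem_replicate ha]
    exact diag_yF F φ
  · rw [prodG_replicate]
    have hF' : Cross F (powG (yF F φ) k).1 := by rw [powG_deg]; exact hF
    obtain ⟨τ, h1, h2⟩ := hF'
    refine cls_powG_ne φ (fun _ _ => rfl) ι hι (yF F φ) k (fun g => (inclF F φ).comp (τ g))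
      (fun g α => ?_) (fun n hn i g g' hi hg => ?_) (fun u g => ?_)
    · have e := yc_neg_one (c := cF F) (Y := (Circ × F) × (Circ × F))
        (s := viaS φ (pull ((fun i => ι (g i)), (inclF F φ).comp (τ g)) α)) fun t => by
        change (pt1.1 : ℂ) * (starRingEnd ℂ) pt2.1 = -1
        simp [pt1, pt2]
      change yc (cF F) (viaS φ (pull ((fun i => ι (g i)), (inclF F φ).comp (τ g)) α)) = _
      rw [e]
      change (if φ (ι (g (α 0))) = φ (ι (g (α 1))) then (0 : ZMod 2) else 1) = _
      rw [hι, hι]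
    · rw [ContinuousMap.comp_assoc, ContinuousMap.comp_assoc, h1 n hn i g g' hi hg]
    · ext1 t
      have e : u • (τ g t) = τ (fun i => u * g i) t := congrArg (fun σ => σ t) (h2 u g)
      exact Prod.ext (Prod.ext (smul_pt1 u) e) (Prod.ext (smul_pt2 u) e)

end Main

end Pool.Agent.KS6_83.TC
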