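import Pool.Agent.KS6_83.TC.Space
import Pool.Agent.KS6_83.TC.Grp

/-!
# The fixed sets, the cross-polytopes, and the main theorem
-/

set_option autoImplicit false

namespace Pool.Agent.KS6_83.TC

open Pool.Agent.Q171.ETC

section Cross

theorem aff_face_zero {d m : ℕ} (h : m + 1 = d) (t : stdSimplex ℝ (Fin (m + 1)))
    (j : Fin (d + 1)) : (aff (face h j.1) t) j = 0 := by
  change FunOnFinite.linearMap ℝ ℝ (face h j.1) t j = 0
  rw [FunOnFinite.linearMap_apply_apply]
  rw [Finset.filter_false_of_mem]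
  · rfl
  · intro k _ hk
    have := congrArg Fin.val hk
    simp only [face] at this
    split_ifs at this <;> omega

/-- the coordinates of the simplex with the vertices `g_i e_i` -/
noncomputable def linE {d : ℕ} (g : Fin (d + 1) → ℤˣ) (t : Fin (d + 1) → ℝ) : ℕ → ℝ :=
  fun n => if h : n < d + 1 then t ⟨n, h⟩ * sr (g ⟨n, h⟩) else 0

theorem linE_apply {d : ℕ} (g : Fin (d + 1) → ℤˣ) (t : Fin (d + 1) → ℝ) (i : Fin (d + 1)) :
    linE g t i.1 = t i * sr (g i) := dif_pos i.2

theorem linE_ne {d : ℕ} (g : Fin (d + 1) → ℤˣ) (t : stdSimplex ℝ (Fin (d + 1))) :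
    linE g t ≠ 0 := by
  intro h
  have h2 : ∀ i, t i = 0 := fun i => by
    have h1 : t i * sr (g i) = 0 := (linE_apply g t i).symm.trans (congrFun h i.1)
    exact (mul_eq_zero.mp h1).resolve_right (sr_ne _)
  have h3 : ∑ i, t i = 1 := stdSimplex.sum_eq_one t
  rw [Finset.sum_eq_zero fun i _ => h2 i] at h3
  exact zero_ne_one h3

theorem continuous_linE {d : ℕ} (g : Fin (d + 1) → ℤˣ) :
    Continuous fun t : stdSimplex ℝ (Fin (d + 1)) => linE g t := by
  refine continuous_pi fun n => ?_
  by_cases h : n < d + 1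
  · simp only [linE, h, dif_pos]
    exact Continuous.mul ((continuous_apply _).comp continuous_subtype_val) continuous_const
  · simp only [linE, h, dif_neg, not_false_eq_true]
    exact continuous_const

/-- the simplex with the vertices `g_i e_i` -/
noncomputable def simE {d : ℕ} (g : Fin (d + 1) → ℤˣ) :
    C(stdSimplex ℝ (Fin (d + 1)), EInf) :=
  ⟨fun t => ⟨linE g t, linE_ne g t⟩, continuous_induced_rng.2 (continuous_linE g)⟩

theorem cross_inf (d : ℕ) : Cross EInf d := by
  refine ⟨simE, fun m h i g g' hi hg => ?_, fun u g => ?_⟩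
  · ext1 t
    apply Subtype.ext
    change linE g (aff (face h i) t) = linE g' (aff (face h i) t)
    funext n
    unfold linE
    by_cases hn : n < d + 1
    · rw [dif_pos hn, dif_pos hn]
      by_cases hni : n = i
      · subst hni
        have := aff_face_zero h t ⟨n, hn⟩
        change (aff (face h n) t) ⟨n, hn⟩ = 0 at this
        rw [this, zero_mul, zero_mul]
      · rw [hg ⟨n, hn⟩ hni]
    · rw [dif_neg hn, dif_neg hn]
  · ext1 t
    apply Subtype.ext
    change (u • (simE g t)).1 = linE (fun i => u * g i) t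
    rw [smul_E]
    funext n
    change sr u * linE g t n = _
    unfold linE
    by_cases hn : n < d + 1
    · rw [dif_pos hn, dif_pos hn, sr_mul]
      ring
    · rw [dif_neg hn, dif_neg hn, mul_zero]

theorem cross_sph {m d : ℕ} (h : d + 1 ≤ 2 * m) : Cross (Sph m) d := by
  obtain ⟨v, hv⟩ := exists_indep m d h
  refine ⟨fun g => sphS hv g, fun n hn i g g' hi hg => ?_, fun u g => ?_⟩
  · exact sph_face hv hn hg
  · ext1 t
    apply Subtype.ext
    change (u • (sphS hv g t)).1 = _
    rw [smul_sph]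
    exact (sph_mul hv u g t).symm

end Cross

section Fixed

variable {G : Type} [Group G] (φ : G →* ℤˣ) (F : Type) [TopologicalSpace F] [MulAction ℤˣ F]
  [ContinuousConstSMul ℤˣ F]

/-- the fixed set of `K` -/
abbrev Fix (K : Subgroup G) : Type := {x : Via φ (Circ × F) // ∀ g ∈ K, g • x = x}

omit [TopologicalSpace F] [ContinuousConstSMul ℤˣ F] in
theorem fix_empty (hfree : ∀ x : F, (-1 : ℤˣ) • x ≠ x) {K : Subgroup G}
    (hK : ∃ g ∈ K, φ g = -1) : IsEmpty (Fix φ F K) := by
  refine ⟨fun x => ?_⟩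
  obtain ⟨g, hg, hg'⟩ := hK
  have h1 : φ g • (x.1 : Circ × F) = (x.1 : Circ × F) := x.2 g hg
  rw [hg'] at h1
  exact hfree _ (congrArg Prod.snd h1)

/-- if `K` acts trivially, the fixed set is the whole space -/
def fixHomeo {K : Subgroup G} (hK : ∀ g ∈ K, φ g = 1) : (Circ × F) ≃ₜ Fix φ F K where
  toFun x := ⟨x, fun g hg => by
    change φ g • (x : Circ × F) = x
    rw [hK g hg, one_smul]⟩
  invFun x := x.1
  left_inv _ := rfl
  right_inv _ := rfl
  continuous_toFun := Continuous.subtype_mk (continuous_id (X := Circ × F)) _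
  continuous_invFun := continuous_subtype_val

omit [ContinuousConstSMul ℤˣ F] in
theorem fix_cases (K : Subgroup G) : (∃ g ∈ K, φ g = -1) ∨ ∀ g ∈ K, φ g = 1 := by
  by_cases h : ∃ g ∈ K, φ g = -1
  · exact Or.inl h
  · refine Or.inr fun g hg => ?_
    rcases Int.units_eq_one_or (φ g) with h' | h'
    · exact h'
    · exact absurd ⟨g, hg, h'⟩ h

omit [ContinuousConstSMul ℤˣ F] in
theorem TCle_fix (hfree : ∀ x : F, (-1 : ℤˣ) • x ≠ x) {n : ℕ} (h : TCle (Circ × F) n)
    (K : Subgroup G) : TCle (Fix φ F K) n := by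
  rcases fix_cases φ K with hK | hK
  · have := fix_empty φ F hfree hK
    exact TCle_of_isEmpty n
  · exact TCle_of_homeo (fixHomeo φ F hK) h

end Fixed

section Lower

/-- the circle is not contractible: there is no motion planner on the whole of `S¹ × F` -/
theorem not_TCle_zero (F : Type) [TopologicalSpace F] [Nonempty F] : ¬ TCle (Circ × F) 0 := by
  rintro ⟨U, -, hc, hs⟩
  obtain ⟨x0⟩ := (inferInstance : Nonempty F)
  obtain ⟨s, hs1, hs2⟩ := hs 0
  have hU : ∀ p, p ∈ U 0 := fun p => by
    obtain ⟨i, hi⟩ := hc p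
    rwa [Subsingleton.elim (0 : Fin 1) i]
  -- a homotopy from the constant map to the identity of the circle
  let q : Circ → U 0 := fun z => ⟨((pt1, x0), (z, x0)), hU _⟩
  have hq : Continuous q := by
    refine continuous_induced_rng.2 ?_
    exact continuous_const.prodMk (continuous_id.prodMk continuous_const)
  let h : C(unitInterval × Circ, {x : ℂ // x ≠ 0}) :=
    ⟨fun p => ⟨(s (q p.2) p.1).1.1, fun h0 => by
        have := norm_circ (s (q p.2) p.1).1
        rw [h0, norm_zero] at this
        exact zero_ne_one this⟩, by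
      have h1 : Continuous fun p : unitInterval × Circ => s (q p.2) p.1 :=
        (hs1.comp (hq.comp continuous_snd)).eval continuous_fst
      have h2 : Continuous fun p : unitInterval × Circ => (s (q p.2) p.1).1 :=
        continuous_fst.comp h1
      have h3 : Continuous fun p : unitInterval × Circ => ((s (q p.2) p.1).1.1 : ℂ) :=
        continuous_subtype_val.comp h2
      exact h3.subtype_mk _⟩
  have cov := isCoveringMap_npow (𝕜 := ℂ) 2 (by norm_num)
  let f0 : C(Circ, {x : ℂ // x ≠ 0}) := ContinuousMap.const _ ⟨1, one_ne_zero⟩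
  have H0 : ∀ a, h (0, a) = (fun x : {x : ℂ // x ≠ 0} =>
      (⟨x ^ 2, pow_ne_zero 2 x.2⟩ : {x : ℂ // x ≠ 0})) (f0 a) := by
    intro a
    apply Subtype.ext
    change (s (q a) 0).1.1 = (1 : ℂ) ^ 2
    rw [(hs2 (q a)).1, one_pow]
    rfl
  let L := cov.liftHomotopy h f0 H0
  have hL : ∀ z : Circ, ((L (1, z) : {x : ℂ // x ≠ 0}) : ℂ) ^ 2 = z.1 := by
    intro z
    have := congrFun (cov.liftHomotopy_lifts h f0 H0) (1, z)
    have h2 := congrArg Subtype.val this
    change ((L (1, z) : {x : ℂ // x ≠ 0}) : ℂ) ^ 2 = (s (q z) 1).1.1 at h2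
    rw [h2, (hs2 (q z)).2]
  -- compare with `exp (i θ / 2)`
  let ez : ℝ → Circ := fun θ => ⟨Complex.exp (θ * Complex.I), by
    rw [mem_sphere_zero_iff_norm]
    exact Complex.norm_exp_ofReal_mul_I θ⟩
  have hez : Continuous ez := by
    refine continuous_induced_rng.2 ?_
    change Continuous fun θ : ℝ => Complex.exp (θ * Complex.I)
    fun_prop
  have hf : Continuous fun θ : ℝ => ((L (1, ez θ) : {x : ℂ // x ≠ 0}) : ℂ) :=
    continuous_subtype_val.comp (L.continuous.comp (continuous_const.prodMk hez))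
  have hg : Continuous fun θ : ℝ => Complex.exp ((θ / 2 : ℝ) * Complex.I) := by fun_prop
  have hp : IsPreconnected (Set.univ : Set ℝ) := isPreconnected_univ
  have key := hp.eq_or_eq_neg_of_sq_eq (f := fun θ : ℝ => ((L (1, ez θ) : {x : ℂ // x ≠ 0}) : ℂ))
    (g := fun θ : ℝ => Complex.exp ((θ / 2 : ℝ) * Complex.I)) hf.continuousOn hg.continuousOn
    (fun θ _ => by
      simp only [Pi.pow_apply]
      rw [hL, ← Complex.exp_nat_mul]
      change Complex.exp (θ * Complex.I) = _
      congr 1
      push_cast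
      ring)
    (fun {θ} _ => Complex.exp_ne_zero _)
  have e0 : ez (2 * Real.pi) = ez 0 := by
    apply Subtype.ext
    change Complex.exp ((2 * Real.pi : ℝ) * Complex.I) = Complex.exp ((0 : ℝ) * Complex.I)
    push_cast
    rw [Complex.exp_two_pi_mul_I]
    simp
  have e1 : Complex.exp ((2 * Real.pi / 2 : ℝ) * Complex.I) = -1 := by
    rw [mul_div_cancel_left₀ _ (two_ne_zero)]
    exact Complex.exp_pi_mul_I
  have e2 : Complex.exp ((0 / 2 : ℝ) * Complex.I) = 1 := by simp
  rcases key with key | key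
  · have a := key (Set.mem_univ (2 * Real.pi))
    have b := key (Set.mem_univ 0)
    simp only [e0, e1] at a
    simp only [e2] at b
    rw [b] at a
    norm_num at a
  · have a := key (Set.mem_univ (2 * Real.pi))
    have b := key (Set.mem_univ 0)
    simp only [Pi.neg_apply, e0, e1] at a
    simp only [Pi.neg_apply, e2] at b
    rw [b] at a
    norm_num at a

end Lower

section Main

instance : Nonempty EInf := ⟨⟨e0, fun h => by
  have := congrFun h 0
  simp [e0] at this⟩⟩

variable {G : Type} [Group G] (φ : G →* ℤˣ)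

theorem one_le_TC {Y : Type} [TopologicalSpace Y] (h : ¬ TCle Y 0) : 1 ≤ TC Y := by
  refine le_sInf ?_
  rintro k ⟨n, rfl, hn⟩
  have : n ≠ 0 := by
    rintro rfl
    exact h hn
  exact_mod_cast Nat.one_le_iff_ne_zero.2 this

theorem sup_TC : (⨆ K : Subgroup G, TC (Fix φ EInf K)) = 1 := by
  refine le_antisymm (iSup_le fun K => ?_) ?_
  · exact_mod_cast TC_le (TCle_fix φ EInf free_E TCle_inf K)
  · refine le_trans ?_ (le_iSup (fun K : Subgroup G => TC (Fix φ EInf K)) ⊥)
    refine one_le_TC fun h => not_TCle_zero EInf ?_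
    have hb : ∀ g ∈ (⊥ : Subgroup G), φ g = 1 := by
      intro g hg
      rw [Subgroup.mem_bot.1 hg, map_one]
    exact TCle_of_homeo (fixHomeo φ EInf hb).symm h

theorem nil_inf (ι : ℤˣ →* G) (hι : ∀ u, φ (ι u) = u) : nilI G (Via φ (Circ × EInf)) = ⊤ := by
  refine ENat.eq_top_iff_forall_ge.2 fun n => ?_
  exact le_nilI (nilGE_via EInf φ ι hι n (cross_inf n))

end Main

end Pool.Agent.KS6_83.TC
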