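import Pool.Agent.KS6_83.TC.Prod

/-!
# The nilpotency of the ideal of zero divisors, in terms of cocycles
-/

set_option autoImplicit false

namespace Pool.Agent.KS6_83.TC

open Pool.Agent.Q171.ETC

/-- the largest topological complexity of a fixed point set `X^K`, `K` a subgroup of `G` -/
noncomputable def maxTC (G X : Type) [Group G] [MulAction G X] [TopologicalSpace X] : ℕ∞ :=
  ⨆ K : Subgroup G, TC {x : X // ∀ g ∈ K, g • x = x}

/-- the cup product of a list of homogeneous cochains (`1` for the empty list) -/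
noncomputable def prodC {G X : Type} [TopologicalSpace X] (l : List (Σ n, Simp G X n → ZMod 2)) :
    Σ n, Simp G X n → ZMod 2 :=
  l.foldr (fun a b => ⟨a.1 + b.1, cup rfl a.2 b.2⟩) ⟨0, fun _ => 1⟩

section

variable (G X : Type) [TopologicalSpace X] [Group G] [MulAction G X] [ContinuousConstSMul G X]

/-- `nil I ≥ k`, where `I` is the kernel of `Δ^* : H^*_G(X × X) → H^*_G(X)`: there are `k`
homogeneous invariant cocycles on `X × X` whose restrictions to the diagonal are coboundaries of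
invariant cochains, while their cup product is no such coboundary. -/
def NilC (k : ℕ) : Prop :=
  ∃ l : List (Σ n, Simp G (X × X) n → ZMod 2), l.length = k ∧
    (∀ a ∈ l, Inv a.2 ∧ δ rfl a.2 = 0 ∧ IsCobound G X fun s => a.2 (mapS (diag X) s)) ∧
    ¬ IsCobound G (X × X) (prodC l).2

/-- the nilpotency `nil I` of the ideal `I = ker (Δ^* : H^*_G(X × X) → H^*_G(X))` -/
noncomputable def nilC : ℕ∞ := sSup {k : ℕ∞ | ∃ n : ℕ, k = n ∧ NilC G X n}

end

theorem le_nilC {G X : Type} [TopologicalSpace X] [Group G] [MulAction G X]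
    [ContinuousConstSMul G X] {k : ℕ} (h : NilC G X k) : (k : ℕ∞) ≤ nilC G X :=
  le_sSup ⟨k, rfl, h⟩

theorem prodC_replicate {G Y : Type} [Group G] [TopologicalSpace Y] [MulAction G Y]
    [ContinuousConstSMul G Y] (y : Z G Y 1) (k : ℕ) :
    prodC (List.replicate k (⟨1, y.1⟩ : Σ n, Simp G Y n → ZMod 2)) =
      ⟨(powG y k).1, (powG y k).2.1⟩ := by
  induction k with
  | zero => rfl
  | succ k ih =>
    exact congrArg (fun a : Σ n, Simp G Y n → ZMod 2 =>
      (⟨1 + a.1, cup rfl y.1 a.2⟩ : Σ n, Simp G Y n → ZMod 2)) ih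

section Main

variable (F : Type) [TopologicalSpace F] [MulAction ℤˣ F] [ContinuousConstSMul ℤˣ F]
variable {G : Type} [Group G] (φ : G →* ℤˣ)

theorem diag_yC : IsCobound G (Via φ (Circ × F))
    fun s => (yF F φ).1 (mapS (diag (Via φ (Circ × F))) s) := by
  have h := diag_yF F φ
  change cls (pullZ (diag (Via φ (Circ × F))) (diag_equivariant (G := G)) (yF F φ)) = 0 at h
  rw [cls_eq_zero] at h
  exact h

theorem not_cobound (ι : ℤˣ →* G) (hι : ∀ u, φ (ι u) = u) (k : ℕ) (hF : Cross F k) :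
    ¬ IsCobound G (Via φ (Circ × F) × Via φ (Circ × F)) (powG (yF F φ) k).2.1 := by
  rw [← cls_eq_zero]
  have hF' : Cross F (powG (yF F φ) k).1 := by rw [powG_deg]; exact hF
  obtain ⟨τ, h1, h2⟩ := hF'
  refine cls_powG_ne φ (fun _ _ => rfl) ι hι (yF F φ) k (fun g => (inclF F φ).comp (τ g))
    (fun g α => ?_) (fun n hn i g g' hi hg => ?_) (fun u g => ?_)
  · have e := yc_neg_one (c := cF F) (Y := (Circ × F) × (Circ × F))
      (s := viaS φ (pull ((fun i => ι (g i)), (inclF F φ).comp (τ g)) α)) fun t => by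
      change (pt1.1 : ℂ) * (starRingEnd ℂ) pt2.1 = -1
      simp [pt1, pt2]
    change yc (cF F) (viaS φ (pull ((fun i => ι (g i)), (inclF F φ).comp (τ g)) α)) = _
    rw [e]
    change (if φ (ι (g (α 0))) = φ (ι (g (α 1))) then (0 : ZMod 2) else 1) = _
    rw [hι, hι]
  · rw [ContinuousMap.comp_assoc, ContinuousMap.comp_assoc, h1 n hn i g g' hi hg]
  · ext1 t
    have e : u • (τ g t) = τ (fun i => u * g i) t := congrArg (fun σ => σ t) (h2 u g)
    exact Prod.ext (Prod.ext (smul_pt1 u) e) (Prod.ext (smul_pt2 u) e)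

theorem nilC_via (ι : ℤˣ →* G) (hι : ∀ u, φ (ι u) = u) (k : ℕ) (hF : Cross F k) :
    NilC G (Via φ (Circ × F)) k := by
  refine ⟨List.replicate k ⟨1, (yF F φ).1⟩, List.length_replicate, fun a ha => ?_, ?_⟩
  · rw [List.eq_of_mem_replicate ha]
    exact ⟨(yF F φ).2.1, (yF F φ).2.2, diag_yC F φ⟩
  · rw [prodC_replicate]
    exact not_cobound F φ ι hι k hF

theorem maxTC_inf : maxTC G (Via φ (Circ × EInf)) = 1 := sup_TC φ

theorem maxTC_sph (m : ℕ) : maxTC G (Via φ (Circ × Sph m)) ≤ 2 := sup_TC_sph φ m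

theorem nilC_inf (ι : ℤˣ →* G) (hι : ∀ u, φ (ι u) = u) : nilC G (Via φ (Circ × EInf)) = ⊤ :=
  ENat.eq_top_iff_forall_ge.2 fun n => le_nilC (nilC_via EInf φ ι hι n (cross_inf n))

theorem nilC_sph (ι : ℤˣ →* G) (hι : ∀ u, φ (ι u) = u) {m : ℕ} (hm : 1 ≤ m) :
    ((2 * m - 1 : ℕ) : ℕ∞) ≤ nilC G (Via φ (Circ × Sph m)) :=
  le_nilC (nilC_via (Sph m) φ ι hι (2 * m - 1) (cross_sph (by omega)))

end Main

end Pool.Agent.KS6_83.TC
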