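import Pool.Agent.KS6_83.TC.Final

/-!
# `TC(S(E) × S(F)) ≤ 2` for complex normed spaces `E` and `F`
-/

set_option autoImplicit false

namespace Pool.Agent.KS6_83.TC

open Pool.Agent.Q171.ETC Metric

section Planner

variable (E : Type) [NormedAddCommGroup E] [NormedSpace ℂ E]

/-- the domain of the planner, with a variable index -/
def domJ : Type := {p : Fin 2 × (sphere (0 : E) 1 × sphere (0 : E) 1) // p.2 ∈ dom E p.1}

instance : TopologicalSpace (domJ E) := instTopologicalSpaceSubtype

variable {E}

theorem continuous_eps : Continuous eps := continuous_of_discreteTopology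

theorem continuous_ang : Continuous ang := continuous_of_discreteTopology

theorem continuous_planJ : Continuous fun q : domJ E × unitInterval =>
    plan q.1.1.1 (q.1.1.2.1 : E) (q.1.1.2.2 : E) (q.2 : ℝ) := by
  have hv : Continuous fun x : domJ E => x.1 := continuous_subtype_val
  have hj : Continuous fun q : domJ E × unitInterval => q.1.1.1 :=
    continuous_fst.comp (hv.comp continuous_fst)
  have hx : Continuous fun q : domJ E × unitInterval => (q.1.1.2.1 : E) :=
    continuous_subtype_val.comp (continuous_fst.comp (continuous_snd.comp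
      (hv.comp continuous_fst)))
  have hy : Continuous fun q : domJ E × unitInterval => (q.1.1.2.2 : E) :=
    continuous_subtype_val.comp (continuous_snd.comp (continuous_snd.comp
      (hv.comp continuous_fst)))
  have ht : Continuous fun q : domJ E × unitInterval => (q.2 : ℝ) :=
    continuous_subtype_val.comp continuous_snd
  have he : Continuous fun q : domJ E × unitInterval => eps q.1.1.1 := continuous_eps.comp hj
  have ha : Continuous fun q : domJ E × unitInterval => ang q.1.1.1 := continuous_ang.comp hj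
  have hs : Continuous fun q : domJ E × unitInterval =>
      seg q.1.1.1 (q.1.1.2.1 : E) (q.1.1.2.2 : E) (q.2 : ℝ) := by
    unfold seg
    exact ((continuous_const.sub ht).smul hx).add ((he.mul ht).smul hy)
  have hne : ∀ q : domJ E × unitInterval,
      ‖seg q.1.1.1 (q.1.1.2.1 : E) (q.1.1.2.2 : E) (q.2 : ℝ)‖ ≠ 0 :=
    fun q => norm_ne_zero_iff.mpr (seg_ne (mem_sphere_zero_iff_norm.mp q.1.1.2.1.2)
      (mem_sphere_zero_iff_norm.mp q.1.1.2.2.2) q.1.2 q.2.2.1 q.2.2.2)
  have hi := (hs.norm.inv₀ hne).smul hs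
  unfold plan
  refine Continuous.smul ?_ hi
  exact Complex.continuous_exp.comp ((Complex.continuous_ofReal.comp (ha.mul ht)).mul
    continuous_const)

/-- the planner with a variable index -/
noncomputable def planJ (q : domJ E × unitInterval) : sphere (0 : E) 1 :=
  ⟨plan q.1.1.1 (q.1.1.2.1 : E) (q.1.1.2.2 : E) (q.2 : ℝ), by
    rw [mem_sphere_zero_iff_norm]
    exact norm_plan (mem_sphere_zero_iff_norm.mp q.1.1.2.1.2)
      (mem_sphere_zero_iff_norm.mp q.1.1.2.2.2) q.1.2 q.2.2.1 q.2.2.2⟩

theorem continuous_planJ' : Continuous (planJ (E := E)) := continuous_planJ.subtype_mk _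

/-- negative near `y = -x` and positive near `y = x` -/
noncomputable def rho (p : sphere (0 : E) 1 × sphere (0 : E) 1) : ℝ :=
  ‖(p.1 : E) + p.2‖ - ‖(p.1 : E) - p.2‖

omit [NormedSpace ℂ E] in
theorem continuous_rho : Continuous (rho (E := E)) := by
  unfold rho
  fun_prop

theorem two_smul_norm (p : sphere (0 : E) 1) : ‖(p : E) + p‖ = 2 := by
  have hp := p.2
  rw [mem_sphere_zero_iff_norm] at hp
  rw [← two_smul ℝ (p : E), norm_smul, hp]
  norm_num

theorem rho_neg {p : sphere (0 : E) 1 × sphere (0 : E) 1} (h : p ∉ dom E 0) : rho p < 0 := by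
  have h' : (p.2 : E) = -(p.1 : E) := by
    by_contra hh
    refine h ?_
    change eps 0 • (p.2 : E) ≠ -(p.1 : E)
    simpa [eps] using hh
  unfold rho
  rw [h', add_neg_cancel, norm_zero, sub_neg_eq_add, two_smul_norm]
  norm_num

theorem rho_pos {p : sphere (0 : E) 1 × sphere (0 : E) 1} (h : p ∉ dom E 1) : 0 < rho p := by
  have h' : (p.2 : E) = (p.1 : E) := by
    by_contra hh
    refine h ?_
    change eps 1 • (p.2 : E) ≠ -(p.1 : E)
    simpa [eps] using hh
  unfold rho
  rw [h', sub_self, norm_zero, two_smul_norm]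
  norm_num

theorem mem_dom_zero {p : sphere (0 : E) 1 × sphere (0 : E) 1} (h : 0 < rho p) : p ∈ dom E 0 := by
  by_contra hh
  linarith [rho_neg hh]

theorem mem_dom_one {p : sphere (0 : E) 1 × sphere (0 : E) 1} (h : rho p < 0) : p ∈ dom E 1 := by
  by_contra hh
  linarith [rho_pos hh]

end Planner

section Product

variable (E F : Type) [NormedAddCommGroup E] [NormedSpace ℂ E] [NormedAddCommGroup F]
  [NormedSpace ℂ F]

theorem sect (W : Set ((sphere (0 : E) 1 × sphere (0 : F) 1) × (sphere (0 : E) 1 ×
    sphere (0 : F) 1))) (j k : W → Fin 2) (hj : Continuous j) (hk : Continuous k)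
    (h1 : ∀ p : W, (p.1.1.1, p.1.2.1) ∈ dom E (j p))
    (h2 : ∀ p : W, (p.1.1.2, p.1.2.2) ∈ dom F (k p)) :
    ∃ s : W → C(unitInterval, sphere (0 : E) 1 × sphere (0 : F) 1), Continuous s ∧
      ∀ p : W, s p 0 = p.1.1 ∧ s p 1 = p.1.2 := by
  let a : W → domJ E := fun p => ⟨(j p, (p.1.1.1, p.1.2.1)), h1 p⟩
  let b : W → domJ F := fun p => ⟨(k p, (p.1.1.2, p.1.2.2)), h2 p⟩
  have ha : Continuous a := Continuous.subtype_mk (hj.prodMk (by fun_prop)) _
  have hb : Continuous b := Continuous.subtype_mk (hk.prodMk (by fun_prop)) _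
  let f : C(W × unitInterval, sphere (0 : E) 1 × sphere (0 : F) 1) :=
    ⟨fun q => (planJ (a q.1, q.2), planJ (b q.1, q.2)),
      (continuous_planJ'.comp ((ha.comp continuous_fst).prodMk continuous_snd)).prodMk
        (continuous_planJ'.comp ((hb.comp continuous_fst).prodMk continuous_snd))⟩
  refine ⟨f.curry, f.curry.continuous, fun p => ⟨?_, ?_⟩⟩
  · refine Prod.ext (Subtype.ext ?_) (Subtype.ext ?_)
    · exact plan_zero (mem_sphere_zero_iff_norm.mp p.1.1.1.2)
    · exact plan_zero (mem_sphere_zero_iff_norm.mp p.1.1.2.2)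
  · refine Prod.ext (Subtype.ext ?_) (Subtype.ext ?_)
    · exact plan_one (mem_sphere_zero_iff_norm.mp p.1.2.1.2)
    · exact plan_one (mem_sphere_zero_iff_norm.mp p.1.2.2.2)

/-- the pairs for which the planner `i` works on both spheres -/
def Wd (i : Fin 2) : Set ((sphere (0 : E) 1 × sphere (0 : F) 1) × (sphere (0 : E) 1 ×
    sphere (0 : F) 1)) := {p | (p.1.1, p.2.1) ∈ dom E i ∧ (p.1.2, p.2.2) ∈ dom F i}

/-- the union of two disjoint open sets -/
def Wm : Set ((sphere (0 : E) 1 × sphere (0 : F) 1) × (sphere (0 : E) 1 ×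
    sphere (0 : F) 1)) :=
  {p | (rho (p.1.1, p.2.1) < 0 ∧ 0 < rho (p.1.2, p.2.2)) ∨
    (0 < rho (p.1.1, p.2.1) ∧ rho (p.1.2, p.2.2) < 0)}

theorem isOpen_Wd (i : Fin 2) : IsOpen (Wd E F i) :=
  ((isOpen_dom _).preimage (by fun_prop)).inter ((isOpen_dom _).preimage (by fun_prop))

omit [NormedSpace ℂ E] [NormedSpace ℂ F] in
theorem isOpen_Wm : IsOpen (Wm E F) := by
  have c1 : Continuous fun p : (sphere (0 : E) 1 × sphere (0 : F) 1) × (sphere (0 : E) 1 ×
      sphere (0 : F) 1) => rho (p.1.1, p.2.1) := continuous_rho.comp (by fun_prop)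
  have c2 : Continuous fun p : (sphere (0 : E) 1 × sphere (0 : F) 1) × (sphere (0 : E) 1 ×
      sphere (0 : F) 1) => rho (p.1.2, p.2.2) := continuous_rho.comp (by fun_prop)
  exact ((isOpen_lt c1 continuous_const).inter (isOpen_lt continuous_const c2)).union
    ((isOpen_lt continuous_const c1).inter (isOpen_lt c2 continuous_const))

theorem TCle_two : TCle (sphere (0 : E) 1 × sphere (0 : F) 1) 2 := by
  classical
  refine ⟨![Wd E F 0, Wm E F, Wd E F 1], fun i => ?_, fun p => ?_, fun i => ?_⟩
  · fin_cases i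
    · exact isOpen_Wd E F 0
    · exact isOpen_Wm E F
    · exact isOpen_Wd E F 1
  · by_cases h0 : p ∈ Wd E F 0
    · exact ⟨0, h0⟩
    by_cases h1 : p ∈ Wd E F 1
    · exact ⟨2, h1⟩
    refine ⟨1, ?_⟩
    change p ∈ Wm E F
    have a : (p.1.1, p.2.1) ∉ dom E 0 ∨ (p.1.2, p.2.2) ∉ dom F 0 := by
      by_contra hh
      push Not at hh
      exact h0 hh
    have b : (p.1.1, p.2.1) ∉ dom E 1 ∨ (p.1.2, p.2.2) ∉ dom F 1 := by
      by_contra hh
      push Not at hh
      exact h1 hh
    rcases a with a | a <;> rcases b with b | b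
    · exact absurd (rho_neg a) (not_lt.2 (rho_pos b).le)
    · exact Or.inl ⟨rho_neg a, rho_pos b⟩
    · exact Or.inr ⟨rho_pos b, rho_neg a⟩
    · exact absurd (rho_neg a) (not_lt.2 (rho_pos b).le)
  · fin_cases i
    · exact sect E F (Wd E F 0) (fun _ => 0) (fun _ => 0) continuous_const continuous_const
        (fun p => p.2.1) (fun p => p.2.2)
    · let r : Wm E F → ℝ := fun p => rho (p.1.1.1, p.1.2.1)
      have hr : Continuous r := continuous_rho.comp (by fun_prop)
      have hcl : IsClopen {p : Wm E F | r p < 0} := by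
        refine ⟨?_, isOpen_lt hr continuous_const⟩
        have e : {p : Wm E F | r p < 0} = {p : Wm E F | r p ≤ 0} := by
          ext p
          refine ⟨fun h => ?_, fun h => ?_⟩
          · change r p ≤ 0
            exact le_of_lt h
          change r p < 0
          change r p ≤ 0 at h
          rcases p.2 with h' | h'
          · exact h'.1
          · exact absurd h'.1 (not_lt.2 h)
        rw [e]
        exact isClosed_le hr continuous_const
      have hif : ∀ u v : Fin 2, Continuous fun p : Wm E F => if r p < 0 then u else v :=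
        fun u v => continuous_if (by rw [hcl.frontier_eq]; simp) continuousOn_const
          continuousOn_const
      refine sect E F (Wm E F) (fun p => if r p < 0 then 1 else 0)
        (fun p => if r p < 0 then 0 else 1) (hif 1 0) (hif 0 1) (fun p => ?_) (fun p => ?_)
      · by_cases h : r p < 0
        · rw [if_pos h]
          exact mem_dom_one h
        · rw [if_neg h]
          rcases p.2 with h' | h'
          · exact absurd h'.1 h
          · exact mem_dom_zero h'.1
      · by_cases h : r p < 0
        · rw [if_pos h]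
          rcases p.2 with h' | h'
          · exact mem_dom_zero h'.2
          · exact absurd h (not_lt.2 h'.1.le)
        · rw [if_neg h]
          rcases p.2 with h' | h'
          · exact absurd h'.1 h
          · exact mem_dom_one h'.2
    · exact sect E F (Wd E F 1) (fun _ => 1) (fun _ => 1) continuous_const continuous_const
        (fun p => p.2.1) (fun p => p.2.2)

end Product

section Closed

variable {G : Type} [Group G] (φ : G →* ℤˣ)

theorem sup_TC_sph (m : ℕ) : (⨆ K : Subgroup G, TC (Fix φ (Sph m) K)) ≤ 2 := by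
  refine iSup_le fun K => ?_
  have h : TCle (Circ × Sph m) 2 := TCle_two ℂ (EuclideanSpace ℂ (Fin m))
  exact_mod_cast TC_le (TCle_fix φ (Sph m) free_sph h K)

theorem nil_sph (ι : ℤˣ →* G) (hι : ∀ u, φ (ι u) = u) {m : ℕ} (hm : 1 ≤ m) :
    ((2 * m - 1 : ℕ) : ℕ∞) ≤ nilI G (Via φ (Circ × Sph m)) :=
  le_nilI (nilGE_via (Sph m) φ ι hι (2 * m - 1) (cross_sph (by omega)))

end Closed

end Pool.Agent.KS6_83.TC
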