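import Pool.Graph.R_pool_sql_team_seeded_3997aac3.Q171.ETC.Main

/-!
# A contractible space with a free involution, and motion planning on its product with the circle
-/

set_option autoImplicit false

namespace Pool.Agent.KS6_83.TC

open Pool.Agent.Q171.ETC

/-- `ℝ^ℕ` (with the product topology) without the origin -/
def EInf : Type := {x : ℕ → ℝ // x ≠ 0}

instance topEInf : TopologicalSpace EInf := instTopologicalSpaceSubtype

/-- the involution `x ↦ -x` -/
def negE (x : EInf) : EInf := ⟨-x.1, neg_ne_zero.2 x.2⟩

theorem negE_negE (x : EInf) : negE (negE x) = x := Subtype.ext (neg_neg x.1)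

/-- `-1` acts by `x ↦ -x` -/
noncomputable instance actEInf : MulAction ℤˣ EInf where
  smul := invAct negE
  one_smul := invAct_one negE
  mul_smul := invAct_mul negE_negE

theorem continuous_negE : Continuous negE :=
  (continuous_neg.comp continuous_subtype_val).subtype_mk _

instance contEInf : ContinuousConstSMul ℤˣ EInf := ⟨continuous_invAct continuous_negE⟩

theorem neg_smul_E (x : EInf) : (((-1 : ℤˣ) • x : EInf)).1 = -x.1 :=
  congrArg Subtype.val (if_neg (by decide) : invAct negE (-1) x = negE x)

theorem smul_E (g : ℤˣ) (x : EInf) : (g • x : EInf).1 = sr g • x.1 := by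
  rcases Int.units_eq_one_or g with rfl | rfl
  · rw [one_smul]
    simp [sr]
  · rw [neg_smul_E]
    simp [sr]

theorem free_E (x : EInf) : (-1 : ℤˣ) • x ≠ x := by
  intro h
  have h1 := congrArg Subtype.val h
  rw [neg_smul_E] at h1
  exact x.2 (neg_eq_self.mp h1)

theorem free_sph {m : ℕ} (x : Sph m) : (-1 : ℤˣ) • x ≠ x := by
  intro h1
  have h2 := congrArg Subtype.val h1
  rw [neg_smul_sph] at h2
  have h3 : ‖x.1‖ = 1 := mem_sphere_zero_iff_norm.mp x.2
  have h4 : (2 : ℝ) • x.1 = 0 := by
    rw [two_smul]
    nth_rewrite 1 [← h2]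
    exact neg_add_cancel _
  have h5 := congrArg norm h4
  rw [norm_smul, h3, norm_zero] at h5
  norm_num at h5

/-- the shift -/
def shift (x : ℕ → ℝ) : ℕ → ℝ := fun n => if n = 0 then 0 else x (n - 1)

/-- the first unit vector -/
def e0 : ℕ → ℝ := fun n => if n = 0 then 1 else 0

theorem seg1 {x : ℕ → ℝ} (hx : x ≠ 0) {u v : ℝ} (h : u ≠ 0 ∨ v ≠ 0) :
    u • x + v • shift x ≠ 0 := by
  intro h0
  have hn : ∀ n, u * x n + v * shift x n = 0 := fun n => congrFun h0 n
  apply hx
  funext n
  by_cases hu : u = 0
  · have hv : v ≠ 0 := by tauto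
    have := hn (n + 1)
    rw [hu] at this
    simp only [shift, Nat.add_sub_cancel, zero_mul, zero_add] at this
    rw [if_neg (by omega)] at this
    exact (mul_eq_zero.mp this).resolve_left hv
  · induction n with
    | zero =>
      have := hn 0
      simp only [shift, if_true, mul_zero, add_zero] at this
      exact (mul_eq_zero.mp this).resolve_left hu
    | succ n ih =>
      have := hn (n + 1)
      simp only [shift, Nat.add_sub_cancel] at this
      rw [if_neg (by omega), ih] at this
      simp only [Pi.zero_apply, mul_zero, add_zero] at this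
      exact (mul_eq_zero.mp this).resolve_left hu

theorem seg2 {x : ℕ → ℝ} (hx : x ≠ 0) {u v : ℝ} (h : u ≠ 0 ∨ v ≠ 0) :
    u • shift x + v • e0 ≠ 0 := by
  intro h0
  have hn : ∀ n, u * shift x n + v * e0 n = 0 := fun n => congrFun h0 n
  have hv : v = 0 := by
    have := hn 0
    simpa [shift, e0] using this
  have hu : u ≠ 0 := by tauto
  apply hx
  funext n
  have := hn (n + 1)
  simp only [shift, e0, Nat.add_sub_cancel, hv, zero_mul, add_zero] at this
  rw [if_neg (by omega)] at this
  exact (mul_eq_zero.mp this).resolve_left hu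

/-- the hat function at `i` -/
noncomputable def hat (s i : ℝ) : ℝ := max 0 (1 - |s - i|)

theorem hat_zero {s i : ℝ} (h : s ≤ i - 1 ∨ i + 1 ≤ s) : hat s i = 0 := by
  unfold hat
  apply max_eq_left
  rcases h with h | h
  · have := neg_le_abs (s - i)
    linarith
  · have := le_abs_self (s - i)
    linarith

theorem hat_left {s i : ℝ} (h0 : i ≤ s) (h1 : s ≤ i + 1) : hat s i = 1 - (s - i) := by
  unfold hat
  rw [abs_of_nonneg (by linarith), max_eq_right (by linarith)]

theorem hat_right {s i : ℝ} (h0 : i - 1 ≤ s) (h1 : s ≤ i) : hat s i = 1 - (i - s) := by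
  unfold hat
  rw [abs_of_nonpos (by linarith), max_eq_right (by linarith)]
  ring

theorem continuous_hat (i : ℝ) : Continuous fun s => hat s i := by
  unfold hat
  fun_prop

/-- the path from `x` to `y` along the vertices `x, S x, e₀, S y, y` -/
noncomputable def pathF (x y : ℕ → ℝ) (t : ℝ) : ℕ → ℝ :=
  hat (4 * t) 0 • x + hat (4 * t) 1 • shift x + hat (4 * t) 2 • e0 + hat (4 * t) 3 • shift y +
    hat (4 * t) 4 • y

theorem path_zero (x y : ℕ → ℝ) : pathF x y 0 = x := by
  unfold pathF
  rw [mul_zero, hat_left (i := 0) le_rfl (by norm_num), hat_zero (i := 1) (by norm_num),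
    hat_zero (i := 2) (by norm_num), hat_zero (i := 3) (by norm_num),
    hat_zero (i := 4) (by norm_num)]
  simp

theorem path_one (x y : ℕ → ℝ) : pathF x y 1 = y := by
  unfold pathF
  rw [mul_one, hat_zero (i := 0) (by norm_num), hat_zero (i := 1) (by norm_num),
    hat_zero (i := 2) (by norm_num), hat_zero (i := 3) (by norm_num),
    hat_left (i := 4) le_rfl (by norm_num)]
  simp

theorem path_ne {x y : ℕ → ℝ} (hx : x ≠ 0) (hy : y ≠ 0) {t : ℝ} (h0 : 0 ≤ t) (h1 : t ≤ 1) :
    pathF x y t ≠ 0 := by
  unfold pathF
  rcases le_total (4 * t) 1 with a | a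
  · rw [hat_left (i := 0) (by linarith) (by linarith), hat_right (i := 1) (by linarith) a,
      hat_zero (i := 2) (by left; linarith), hat_zero (i := 3) (by left; linarith),
      hat_zero (i := 4) (by left; linarith)]
    simp only [zero_smul, add_zero]
    refine seg1 hx ?_
    by_contra hh
    push Not at hh
    linarith [hh.1, hh.2]
  rcases le_total (4 * t) 2 with b | b
  · rw [hat_zero (i := 0) (by right; linarith), hat_left (i := 1) a (by linarith),
      hat_right (i := 2) (by linarith) b, hat_zero (i := 3) (by left; linarith),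
      hat_zero (i := 4) (by left; linarith)]
    simp only [zero_smul, add_zero, zero_add]
    refine seg2 hx ?_
    by_contra hh
    push Not at hh
    linarith [hh.1, hh.2]
  rcases le_total (4 * t) 3 with c | c
  · rw [hat_zero (i := 0) (by right; linarith), hat_zero (i := 1) (by right; linarith),
      hat_left (i := 2) b (by linarith), hat_right (i := 3) (by linarith) c,
      hat_zero (i := 4) (by left; linarith)]
    simp only [zero_smul, add_zero, zero_add]
    rw [add_comm]
    refine seg2 hy ?_
    by_contra hh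
    push Not at hh
    linarith [hh.1, hh.2]
  · rw [hat_zero (i := 0) (by right; linarith), hat_zero (i := 1) (by right; linarith),
      hat_zero (i := 2) (by right; linarith), hat_left (i := 3) c (by linarith),
      hat_right (i := 4) (by linarith) (by linarith)]
    simp only [zero_smul, zero_add]
    rw [add_comm]
    refine seg1 hy ?_
    by_contra hh
    push Not at hh
    linarith [hh.1, hh.2]

theorem continuous_shift : Continuous shift := by
  refine continuous_pi fun n => ?_
  by_cases hn : n = 0
  · simp only [shift, hn, if_true]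
    exact continuous_const
  · simp only [shift, hn, if_false]
    exact continuous_apply _

theorem continuous_pathF : Continuous fun q : ((ℕ → ℝ) × (ℕ → ℝ)) × ℝ =>
    pathF q.1.1 q.1.2 q.2 := by
  unfold pathF
  have hs : ∀ i : ℝ, Continuous fun q : ((ℕ → ℝ) × (ℕ → ℝ)) × ℝ => hat (4 * q.2) i :=
    fun i => (continuous_hat i).comp (by fun_prop)
  have hx : Continuous fun q : ((ℕ → ℝ) × (ℕ → ℝ)) × ℝ => q.1.1 :=
    continuous_fst.comp continuous_fst
  have hy : Continuous fun q : ((ℕ → ℝ) × (ℕ → ℝ)) × ℝ => q.1.2 :=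
    continuous_snd.comp continuous_fst
  exact (((((hs 0).smul hx).add ((hs 1).smul (continuous_shift.comp hx))).add
    ((hs 2).smul continuous_const)).add ((hs 3).smul (continuous_shift.comp hy))).add
    ((hs 4).smul hy)

/-- the motion planner of `EInf` -/
noncomputable def planF (q : (EInf × EInf) × unitInterval) : EInf :=
  ⟨pathF q.1.1.1 q.1.2.1 (q.2 : ℝ), path_ne q.1.1.2 q.1.2.2 q.2.2.1 q.2.2.2⟩

theorem continuous_coord : Continuous fun q : (EInf × EInf) × unitInterval =>
    (((q.1.1.1 : ℕ → ℝ), (q.1.2.1 : ℕ → ℝ)), (q.2 : ℝ)) := by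
  have hv : Continuous fun x : EInf => (x.1 : ℕ → ℝ) := continuous_subtype_val
  have h1 : Continuous fun q : (EInf × EInf) × unitInterval => (q.1.1.1 : ℕ → ℝ) :=
    hv.comp (continuous_fst.comp continuous_fst)
  have h2 : Continuous fun q : (EInf × EInf) × unitInterval => (q.1.2.1 : ℕ → ℝ) :=
    hv.comp (continuous_snd.comp continuous_fst)
  have h3 : Continuous fun q : (EInf × EInf) × unitInterval => (q.2 : ℝ) :=
    continuous_subtype_val.comp continuous_snd
  exact (h1.prodMk h2).prodMk h3

theorem continuous_planF : Continuous planF := by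
  have h := continuous_pathF.comp continuous_coord
  exact continuous_induced_rng.2 h

/-- the motion planner of `EInf`, as a continuous map -/
noncomputable def planE : C((EInf × EInf) × unitInterval, EInf) := ⟨planF, continuous_planF⟩

theorem planE_zero (x y : EInf) : planE ((x, y), 0) = x := Subtype.ext (path_zero x.1 y.1)

theorem planE_one (x y : EInf) : planE ((x, y), 1) = y := Subtype.ext (path_one x.1 y.1)

theorem TCle_sphere (F : Type) [TopologicalSpace F] (P : C((F × F) × unitInterval, F))
    (P0 : ∀ x y, P ((x, y), 0) = x) (P1 : ∀ x y, P ((x, y), 1) = y) :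
    TCle (Metric.sphere (0 : ℂ) 1 × F) 1 := by
  refine ⟨fun i => {p | (p.1.1, p.2.1) ∈ dom ℂ i}, fun i => ?_, fun p => ?_, fun i => ?_⟩
  · exact (isOpen_dom _).preimage (by fun_prop)
  · exact dom_cover (p.1.1, p.2.1)
  · let W := {p : (Metric.sphere (0 : ℂ) 1 × F) × (Metric.sphere (0 : ℂ) 1 × F) |
      (p.1.1, p.2.1) ∈ dom ℂ i}
    let f : C(W × unitInterval, Metric.sphere (0 : ℂ) 1 × F) :=
      ⟨fun q => (planS i (⟨_, q.1.2⟩, q.2), P ((q.1.1.1.2, q.1.1.2.2), q.2)), by
        refine ((continuous_planS _).comp ?_).prodMk (P.continuous.comp ?_)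
        · refine Continuous.prodMk (Continuous.subtype_mk (by fun_prop) _) (by fun_prop)
        · fun_prop⟩
    refine ⟨f.curry, f.curry.continuous, fun p => ⟨?_, ?_⟩⟩
    · refine Prod.ext (Subtype.ext ?_) (P0 _ _)
      exact plan_zero (mem_sphere_zero_iff_norm.mp p.1.1.1.2)
    · refine Prod.ext (Subtype.ext ?_) (P1 _ _)
      exact plan_one (mem_sphere_zero_iff_norm.mp p.1.2.1.2)

theorem TCle_inf : TCle (Circ × EInf) 1 := TCle_sphere EInf planE planE_zero planE_one

theorem TCle_sph (m : ℕ) : TCle (Circ × Sph m) 3 := TCle_prod ℂ (EuclideanSpace ℂ (Fin m))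

end Pool.Agent.KS6_83.TC
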